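import Pool.Agent.Run7.h712.TS.Main
import Pool.Agent.N534.HC.State

/-!
# Euler products over number fields given by local traces: almost all members
-/

set_option autoImplicit false

namespace Pool.Agent.Run7.h712.OC

open Finset NumberField IsDedekindDomain
open Pool.Agent.N666.TM (Well)
open Pool.Agent.N534.PS (Pow lamT)
open Pool.Agent.N534.HC.St (Cmp logL logL_eq)
open Pool.Agent.Run7.h712.TS (Good abs_main)

section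
variable {K : Type} [Field K] [NumberField K] {ι : Type} [Fintype ι] [DecidableEq ι]
variable {w p0 : ℕ} {T : ∀ p : ℕ, ℕ → (ι → ZMod p) → ℝ} {Bad : ∀ p : ℕ, (ι → ZMod p) → Prop}
  {t : (ι → ℤ) → HeightOneSpectrum (𝓞 K) → ℕ → ℝ} {G : (ι → ℤ) → HeightOneSpectrum (𝓞 K) → Prop} {D : ℝ}

open Classical in
/-- **Almost all members.** -/
theorem pow_main (h : Cmp w p0 T Bad t G) (hp : Pow D w p0 T Bad) (E : ℕ) {κ : ℝ} (hκ : 0 < κ) (N₀ : ℕ) :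
    ∃ κ' C : ℝ, 0 < κ' ∧ 0 < C ∧ ∃ y₀ : ℕ, 16 ≤ y₀ ∧ ∀ y M : ℕ, y₀ ≤ y → 2 ≤ M → ∀ (S : Finset ℕ) (x : ℕ → ι → ℤ),
      (N₀ ≤ M → ∀ H : ℕ, (H : ℝ) ≤ (M : ℝ) ^ κ → Well S x H) →
      ((S.filter fun n => ¬ ∀ s : ℂ, 1 + (w : ℝ) / 2 + 1 / Real.log M ≤ s.re → s.re ≤ 2 + (w : ℝ) / 2 →
        |s.im| ≤ (M : ℝ) ^ κ' → ‖logL (t (x n)) (G (x n)) s‖ ≤ C * Real.log (Real.log (y + |s.im|))).card : ℝ) ≤
        1 / (y : ℝ) ^ E * S.card := by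
  have hD := hp.D1
  obtain ⟨κ', C, hκ', hC, y₀, hy₀, h1⟩ := abs_main hp.fam (β := 2 * D) (by linarith) E hκ N₀
  refine ⟨κ', C, hκ', hC, y₀, hy₀, fun y M hy hM S x hw => ?_⟩
  refine le_trans ?_ (h1 y M hy hM S x hw)
  have hsub : (S.filter fun n => ¬ ∀ s : ℂ, 1 + (w : ℝ) / 2 + 1 / Real.log M ≤ s.re → s.re ≤ 2 + (w : ℝ) / 2 →
        |s.im| ≤ (M : ℝ) ^ κ' → ‖logL (t (x n)) (G (x n)) s‖ ≤ C * Real.log (Real.log (y + |s.im|))) ⊆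
      S.filter fun n => ¬ Good (2 * D) (Pool.Agent.N534.PS.NT w p0 T) (Pool.Agent.N534.PS.BT p0 Bad) κ' C M y (x n) := by
    intro n hn
    rw [mem_filter] at hn ⊢
    refine ⟨hn.1, fun hG => hn.2 fun s hs1 hs2 hs3 => ?_⟩
    have hre : (s - (1 + (w : ℂ) / 2)).re = s.re - (1 + (w : ℝ) / 2) := Pool.Agent.N534.AS.State.re_sub s _
    have him : (s - (1 + (w : ℂ) / 2)).im = s.im := Pool.Agent.N534.AS.State.im_sub s _
    have h2 := hG _ (hp.loc (x n)) (s - (1 + (w : ℂ) / 2)) (by rw [hre]; linarith) (by rw [hre]; linarith) (by rw [him]; exact hs3)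
    rw [him] at h2
    rw [logL_eq h]
    exact h2
  exact_mod_cast card_le_card hsub

open Classical in
theorem pow_main' (h : Cmp w p0 T Bad t G) (hp : Pow D w p0 T Bad) (L : (ι → ℤ) → ℂ → ℂ)
    (hL : ∀ c s, L c s = logL (t c) (G c) s) (E : ℕ) {κ : ℝ} (hκ : 0 < κ) (N₀ : ℕ) :
    ∃ κ' C : ℝ, 0 < κ' ∧ 0 < C ∧ ∃ y₀ : ℕ, 16 ≤ y₀ ∧ ∀ y M : ℕ, y₀ ≤ y → 2 ≤ M → ∀ (S : Finset ℕ) (x : ℕ → ι → ℤ),
      (N₀ ≤ M → ∀ H : ℕ, (H : ℝ) ≤ (M : ℝ) ^ κ → Well S x H) →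
      ((S.filter fun n => ¬ ∀ s : ℂ, 1 + (w : ℝ) / 2 + 1 / Real.log M ≤ s.re → s.re ≤ 2 + (w : ℝ) / 2 →
        |s.im| ≤ (M : ℝ) ^ κ' → ‖L (x n) s‖ ≤ C * Real.log (Real.log (y + |s.im|))).card : ℝ) ≤
        1 / (y : ℝ) ^ E * S.card := by
  have h1 : L = fun c s => logL (t c) (G c) s := by
    funext c s
    exact hL c s
  subst h1
  exact pow_main h hp E hκ N₀

end

end Pool.Agent.Run7.h712.OC
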